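import Mathlib
import Pool.Agent.MP_19ffc6_ag.LU4.MC

namespace Pool.Agent.Results.MP_19ffc6_ag.EmbeddedUniformization

open NNReal

/-- `B` is generated over `A` by one element `z`, and either a power of `z` with exponent not
divisible by `p` lies in `A`, or `z` has value less than one and is a root of a polynomial over the
valuation ring of `A` whose coefficient of degree `d` is a unit, where `d` is less than `p` or `B`
has `d` nonzero elements whose values are pairwise incongruent modulo the values of `A`. -/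
def Step {k K : Type*} [Field k] [Field K] [Algebra k K] (p : ℕ) (v : Valuation K ℝ≥0)
    (A B : IntermediateField k K) : Prop :=
  ∃ z : K, B = A ⊔ IntermediateField.adjoin k {z} ∧ ((∃ a : ℕ, ¬ p ∣ a ∧ z ^ a ∈ A) ∨
    (v z < 1 ∧ ∃ (P : Polynomial K) (d : ℕ), (∀ i, P.coeff i ∈ A ∧ v (P.coeff i) ≤ 1) ∧
      v (P.coeff d) = 1 ∧ P.eval z = 0 ∧ (d < p ∨ ∃ ρ : Fin d → K, (∀ i, ρ i ∈ B ∧ ρ i ≠ 0) ∧
        ∀ i j, ∀ b ∈ A, v (ρ i) = v b * v (ρ j) → i = j)))

/-- `y` is a limit of elements algebraic over `E`: the inequality says, by the Newton polygon of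
`g (y + T)`, that the polynomial `g` over `E` has a root at distance less than `ε` from `y` in the
algebraic closure of `K`. -/
def Limit {k K : Type*} [Field k] [Field K] [Algebra k K] (v : Valuation K ℝ≥0)
    (E : IntermediateField k K) (y : K) : Prop :=
  ∀ ε : ℝ≥0, 0 < ε → ∃ (g : Polynomial K) (j : ℕ), (∀ i, g.coeff i ∈ E) ∧
    v (g.eval y) < ε ^ j * v ((Polynomial.taylor y g).coeff j)

theorem result (p : ℕ) [Fact p.Prime] (k : Type*) [Field k] [IsAlgClosed k] [CharP k p]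
    (K : Type*) [Field K] [Algebra k K]
    (v : Valuation K ℝ≥0) (hk : ∀ c : k, c ≠ 0 → v (algebraMap k K c) = 1)
    (hres : ∀ a : K, v a ≤ 1 → ∃ c : k, v (a - algebraMap k K c) < 1)
    (E : IntermediateField k K) (hE : E.FG) (n : ℕ) (htr : Algebra.trdeg k E ≤ n)
    (hfull : ∀ a : K, ∃ m : ℕ, 0 < m ∧ ∃ b ∈ E, v a ^ m = v b)
    (r : ℕ) (x : Fin r → K) (hx : ∀ i, x i ≠ 0)
    (hind : ∀ m : Fin r → ℤ, ∏ i, v (x i) ^ m i = 1 → m = 0)
    (hn : n.factorial < p ∨ 2 ≤ r ∧ n ≤ r + 2) (y z : K)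
    (hz : z = 0 ∨ IsSeparable ↥(E ⊔ IntermediateField.adjoin k {y}) z ∧ Limit v E y)
    (hK : Relation.ReflTransGen (Step p v) (E ⊔ IntermediateField.adjoin k {y, z}) ⊤)
    (Z : Finset K) (hZ : ∀ a ∈ Z, v a ≤ 1) :
    ∃ A : Subalgebra k K, A.FG ∧ (∀ a ∈ A, v a ≤ 1) ∧ (∀ a ∈ Z, a ∈ A) ∧
      IsFractionRing A K ∧ Algebra.Smooth k A ∧
      ∃ (d : ℕ) (t : Fin d → K), AlgebraicIndependent k t ∧ (∀ i, t i ∈ A ∧ v (t i) < 1) ∧
        (∀ a ∈ A, v a < 1 → ∃ u ∈ A, v u = 1 ∧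
          ∃ c : Fin d → K, (∀ i, c i ∈ A) ∧ u * a = ∑ i, c i * t i) ∧
        ∀ a ∈ Z, a ≠ 0 → ∃ m : Fin d → ℕ, ∃ u ∈ A, v u = 1 ∧ a = u * ∏ i, t i ^ m i :=
  Pool.Agent.MP_19ffc6_ag.LU4.mainF p k K v hk hres E hE n htr hfull r x hx hind hn y z hz hK Z hZ

end Pool.Agent.Results.MP_19ffc6_ag.EmbeddedUniformization
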