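import Mathlib
import Pool.Agent.MP_19ffc6_ag.Res.SFin

/-! Resolution of singularities in every dimension `n` over all perfect fields whose
characteristic exceeds an explicit bound of factorial size that depends on `n` only. -/

open AlgebraicGeometry CategoryTheory

namespace Pool.Agent.Results.MP_19ffc6_ag.FactorialCharacteristic

/-- `tau 0 s = 1` and `tau (r + 1) s` is the maximum over `a ≤ s` of the product of
`max (a - r) 0 + 1` and `tau r (s - a)`. -/
def tau : ℕ → ℕ → ℕ
  | 0, _ => 1
  | r + 1, s => (Finset.range (s + 1)).sup fun a => (a - r + 1) * tau r (s - a)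

/-- The bound for the characteristic in dimension `n` (truncated subtraction, floor division). -/
def bound (n : ℕ) : ℕ :=
  tau (n - 1) (n - 1) *
    ((n + 1).factorial * (max (n - 1) 2 + 1) ^ n / max (n - 1) 2 ^ (n - 1) + 1) + 1

theorem tau_eq (r s : ℕ) : tau r s = Pool.Agent.R72.Res.SH.tau r s := by
  induction r generalizing s with
  | zero => rfl
  | succ r ih => simp only [tau, Pool.Agent.R72.Res.SH.tau, ih]

theorem bound_succ (m : ℕ) : bound (m + 1) = Pool.Agent.R72.Res.SH.cc m := by
  rw [bound, tau_eq]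
  rfl

theorem bound_values : bound 4 = 4553 ∧ bound 5 = 52741 ∧ bound 6 = 677224 := by decide

theorem bound_le (n : ℕ) : bound n ≤ 2 ^ (n + 1) * (n + 2).factorial := by
  rcases n with _ | m
  · decide
  · exact bound_succ m ▸ Pool.Agent.R72.Res.SH.cc_le m

theorem result (n p : ℕ) (hp : p.Prime) (hn : bound n < p)
    (k : Type) [Field k] [PerfectField k] [CharP k p]
    (X : Scheme.{0}) (sX : X ⟶ Spec (CommRingCat.of k))
    (h1 : IsIntegral X) (h2 : IsSeparated sX) (h3 : LocallyOfFiniteType sX)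
    (h4 : QuasiCompact sX) (hX : topologicalKrullDim X ≤ n) :
    ∃ (Y : Scheme.{0}) (sY : Y ⟶ Spec (CommRingCat.of k)) (f : Y ⟶ X),
      IsIntegral Y ∧ Smooth sY ∧ f ≫ sX = sY ∧ IsProper f ∧
      ∃ V : X.Opens, V ≠ ⊥ ∧ IsIso (morphismRestrict f V) :=
  haveI := Fact.mk hp
  Pool.Agent.R72.Res.SH.resDim_sharp k p n (fun m hm => by
    obtain ⟨j, rfl⟩ := Nat.exists_eq_add_of_lt hm
    exact lt_of_le_of_lt (Pool.Agent.R72.Res.SH.arithS.ccm (Nat.le_add_right m j))
      (bound_succ (m + j) ▸ hn)) X sX h1 h2 h3 h4 hX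

end Pool.Agent.Results.MP_19ffc6_ag.FactorialCharacteristic
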