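import Mathlib
import Pool.Agent.MP_19ffc6_ag.Lci.Alg
import Pool.Agent.MP_19ffc6_ag.Lci.Closure
import Pool.Agent.MP_19ffc6_ag.Lci.Bridge

/-! Every integral scheme that is separated and of finite type over a field, of any
characteristic and any dimension, has a proper birational integral model that is a local
complete intersection over the field. -/

open AlgebraicGeometry CategoryTheory

namespace Pool.Agent.Results.MP_19ffc6_ag.LciModel

open Pool.Agent.MP_19ffc6_ag.Lci in
theorem result (k : Type) [Field k] (X : Scheme.{0}) (sX : X ⟶ Spec (CommRingCat.of k))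
    (h1 : IsIntegral X) (h2 : IsSeparated sX) (h3 : LocallyOfFiniteType sX)
    (h4 : QuasiCompact sX) :
    ∃ (Y : Scheme.{0}) (f : Y ⟶ X), IsIntegral Y ∧ IsProper f ∧
      (∃ V : X.Opens, V ≠ ⊥ ∧ IsIso (morphismRestrict f V)) ∧
      ∀ y : Y, ∃ (n : ℕ) (r : List (MvPolynomial (Fin n) k))
        (j : Spec (CommRingCat.of (MvPolynomial (Fin n) k ⧸ Ideal.ofList r)) ⟶ Y),
        RingTheory.Sequence.IsRegular (MvPolynomial (Fin n) k) r ∧ IsOpenImmersion j ∧
        y ∈ Set.range j ∧ j ≫ f ≫ sX = Spec.map (CommRingCat.ofHom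
          (algebraMap k (MvPolynomial (Fin n) k ⧸ Ideal.ofList r))) :=
  main_of (model_of closure fun _ _ _ _ _ =>
    have hc := cmp_of (blow_of (local_of nzd alg))
    ⟨alg, init_of nzd alg, pre_of nzd alg hc, add_of nzd alg, hc, transfer_of nzd alg⟩)
    k X sX h1 h2 h3 h4

end Pool.Agent.Results.MP_19ffc6_ag.LciModel
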