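import Mathlib
import Pool.Agent.MP_19ffc6_ag.perf.Fin
import Pool.Agent.MP_19ffc6_ag.perf.PerfAll

/-! Resolution of singularities up to local finite universal homeomorphisms, in every dimension
over every perfect field of positive characteristic. -/

open AlgebraicGeometry CategoryTheory

namespace Pool.Agent.Results.MP_19ffc6_ag.PerfectResolution

theorem result (p : ℕ) (hp : p.Prime) (k : Type) [Field k] [PerfectField k] [CharP k p]
    (X : Scheme.{0}) (sX : X ⟶ Spec (CommRingCat.of k))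
    (h1 : IsIntegral X) (h2 : IsSeparated sX) (h3 : LocallyOfFiniteType sX)
    (h4 : QuasiCompact sX) :
    ∃ (Y : Scheme.{0}) (f : Y ⟶ X), IsIntegral Y ∧ IsProper f ∧
      (∃ V : X.Opens, V ≠ ⊥ ∧ IsIso (morphismRestrict f V)) ∧
      ∀ y : Y, IsIntegrallyClosed (Y.presheaf.stalk y) ∧
        ∃ (U : Y.Opens) (W : Scheme.{0}) (g : W ⟶ U), y ∈ U ∧ IsFinite g ∧ Surjective g ∧
          UniversallyInjective g ∧ Smooth (g ≫ U.ι ≫ f ≫ sX) :=
  haveI := Fact.mk hp
  Pool.Agent.MP_19ffc6_ag.Perf.perfRes_of_up p (Pool.Agent.MP_19ffc6_ag.Perf.perfAllU p)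
    k X sX h1 h2 h3 h4

end Pool.Agent.Results.MP_19ffc6_ag.PerfectResolution
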